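import Pool.Agent.Helper34.CAR.Defs

/-!
# Project CAR (MP_d97caa_an), parts (c) and (d)

Nuclear algebras `D`: the suspension `C₀(ℝ, D)` has property (Q) (`S_Q`, sections 1.1-1.6 of
`Helper34/CAR/proof.md`); a separable algebra with property (Q) is a quotient, with type I kernel,
of a separable algebra with property (N) (`S_E`, section 2); property (N) passes to suspensions
(`S_NS`, section 3.1).
-/

set_option autoImplicit false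

open scoped ComplexOrder ZeroAtInfty InnerProductSpace ComplexConjugate Topology
open Filter

namespace Pool.Agent.Helper61.CAR

open Pool.Agent.Helper34.CAR Pool.Agent.Helper39.Uct

/-! ## Definitions -/

/-- The function `t ↦ g t • x`. -/
noncomputable def tens {E : Type} [NonUnitalCStarAlgebra E] (g : C₀(ℝ, ℝ)) (x : E) :
    C₀(ℝ, E) where
  toFun t := ((g t : ℝ) : ℂ) • x
  continuous_toFun := by fun_prop
  zero_at_infty' := by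
    have h1 : Tendsto (fun t => ((g t : ℝ) : ℂ) • x) (cocompact ℝ) (𝓝 (((0 : ℝ) : ℂ) • x)) :=
      ((Complex.continuous_ofReal.tendsto 0).comp (zero_at_infty g)).smul_const x
    simpa using h1

@[simp] theorem tens_apply {E : Type} [NonUnitalCStarAlgebra E] (g : C₀(ℝ, ℝ)) (x : E) (t : ℝ) :
    tens g x t = ((g t : ℝ) : ℂ) • x := rfl

/-- The tent function of width `r` at `i r`. -/
noncomputable def lam (r : ℝ) (i : ℤ) (t : ℝ) : ℝ := max 0 (1 - |t / r - i|)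

/-- `w` is the family of the images of the unit vectors under a contraction `ℂ^m → H`. -/
def Ctr {m : ℕ} {H : Type} [NormedAddCommGroup H] [InnerProductSpace ℂ H] (w : Fin m → H) :
    Prop :=
  ∀ z : Fin m → ℂ, ‖∑ i, z i • w i‖ ^ 2 ≤ ∑ i, ‖z i‖ ^ 2

/-! ## General tools -/

/-- COL: norm of a quadratic form. Proof: if `a = b* b` then `qf a v = ∑ r, star (u r) * u r` with
`u r = ∑ p, b r p • v p`, so `0 ≤ qf a v` for positive `a`, and by linearity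
`qf a v ≤ ‖a‖ • ∑ star (v p) * v p` for positive `a`. For general `a` let `x p = ∑ q, a p q • v q`
in the Hilbert module `C⋆ᵐᵒᵈ(R, J → R)`: `qf a v = ⟪v, x⟫` (or its adjoint), so
`‖qf a v‖ ≤ ‖v‖ ‖x‖` (`CStarModule.norm_inner_le`), `‖v‖ ^ 2 = ‖∑ star (v p) * v p‖`,
`‖x‖ ^ 2 = ‖∑ star (x p) * x p‖ = ‖qf (star a * a) v‖ ≤ ‖a‖ ^ 2 * ‖∑ star (v p) * v p‖`
(the norm of positive elements is monotone; use `CStarAlgebra.spectralOrder` locally). -/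
def S_COL : Prop := ∀ (R : Type) [NonUnitalCStarAlgebra R] (J : Type) [Fintype J] [DecidableEq J]
  (a : CStarMatrix J J ℂ) (v : J → R), ‖qf a v‖ ≤ ‖a‖ * ‖∑ p, star (v p) * v p‖

/-- MN: norm of a scalar matrix. Proof: `CStarMatrix.norm_le_of_forall_inner_le` (the norm is
the operator norm on `C⋆ᵐᵒᵈ(ℂ, J → ℂ)`, whose norm is `√ ∑ ‖z p‖ ^ 2`). -/
def S_MN : Prop := ∀ (J : Type) [Fintype J] [DecidableEq J] (a : CStarMatrix J J ℂ) (c : ℝ),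
  0 ≤ c → (∀ z w : J → ℂ, ‖∑ p, ∑ q, conj (z p) * a p q * w q‖ ≤
    c * Real.sqrt (∑ p, ‖z p‖ ^ 2) * Real.sqrt (∑ q, ‖w q‖ ^ 2)) → ‖a‖ ≤ c

/-- BD: block diagonal matrices. Proof: `Matrix.blockDiagonal'` is a unital `*`-homomorphism; the
domain is a C*-algebra with the norm `sup ‖x i‖`, so it is contractive. -/
def S_BD : Prop := ∀ (I : Type) [Fintype I] [DecidableEq I] (J : I → Type)
  [∀ i, Fintype (J i)] [∀ i, DecidableEq (J i)],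
  ∃ β : (∀ i, CStarMatrix (J i) (J i) ℂ) →⋆ₐ[ℂ] CStarMatrix (Σ i, J i) (Σ i, J i) ℂ,
    (∀ x i p q, β x ⟨i, p⟩ ⟨i, q⟩ = x i p q) ∧
    (∀ x i j p q, i ≠ j → β x ⟨i, p⟩ ⟨j, q⟩ = 0) ∧
    (∀ x c, 0 ≤ c → (∀ i, ‖x i‖ ≤ c) → ‖β x‖ ≤ c) ∧
    ∀ (R : Type) [NonUnitalCStarAlgebra R] (x : ∀ i, CStarMatrix (J i) (J i) ℂ)
      (v : (Σ i, J i) → R), qf (β x) v = ∑ i, qf (x i) fun p => v ⟨i, p⟩

/-- TENT: the tent functions. Proof: elementary. (e): `|√a - √b| ≤ √|a - b|` and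
`|lam r i t - lam r i t'| ≤ |t - t'| / r`. (c), (d): put `x = t / r`; only `i = ⌊x⌋` and
`i = ⌊x⌋ + 1` contribute, with values `1 - fract x` and `fract x`; both indices are in the window
(or have the value `0`) when `|x| ≤ n0`. -/
def S_TENT : Prop := ∀ r : ℝ, 0 < r →
  (∀ i t, 0 ≤ lam r i t) ∧ (∀ i t, lam r i t ≤ 1) ∧
  (∀ i j t, i + 2 ≤ j → lam r i t * lam r j t = 0) ∧
  (∀ (n0 : ℕ) t, ∑ i ∈ Finset.Icc (-(n0 : ℤ)) n0, lam r i t ≤ 1) ∧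
  (∀ (n0 : ℕ) t, |t| ≤ n0 * r → ∑ i ∈ Finset.Icc (-(n0 : ℤ)) n0, lam r i t = 1) ∧
  (∀ i t t', |Real.sqrt (lam r i t) - Real.sqrt (lam r i t')| ≤ Real.sqrt (|t - t'| / r)) ∧
  (∀ i t, lam r i t ≠ 0 → |t - i * r| < r) ∧ ∀ i, Continuous (lam r i)

/-- PU: approximation by finitely many values. Proof: functions vanishing at infinity are uniformly
continuous; choose `r > 0` with `‖f t - f t'‖ ≤ ε / 2` for `|t - t'| ≤ r` and `n0` with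
`‖f t‖ ≤ ε / 2` for `|t| ≥ n0 r`, for the finitely many `f`. Let `I = {i : |i| ≤ n0}`,
`s i = i r`, `g i = √(lam r i)` (compact support). With `μ = ∑ g i t ^ 2 ≤ 1` the difference is
`∑ g i t ^ 2 • (f (s i) - f t) - (1 - μ) • f t`, of norm `≤ μ ε / 2 + (1 - μ) ε / 2` (if
`|t| ≤ n0 r` then `μ = 1`). Uses `S_TENT`. -/
def S_PU : Prop := ∀ (E : Type) [NonUnitalCStarAlgebra E] (F : Finset C₀(ℝ, E)) (ε : ℝ), 0 < ε →
  ∃ (I : Type) (_ : Fintype I) (_ : DecidableEq I) (s : I → ℝ) (g : I → C₀(ℝ, ℝ)),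
    (∀ i t, 0 ≤ g i t) ∧ (∀ t, ∑ i, g i t ^ 2 ≤ 1) ∧
    ∀ f ∈ F, ∀ t, ‖(∑ i, ((g i t ^ 2 : ℝ) : ℂ) • f (s i)) - f t‖ < ε

/-! ## Property (Q) for suspensions of nuclear algebras -/

/-- CHOI. Proof: the case `m = 0` is trivial. Let `a ∈ M_m(M_m(ℂ))` have first row
`(e_11, e_12, .., e_1m)` and other rows `0`; `(a* a)_ij = e_i1 e_1j = e_ij`. By `IsCP` there is `c`
with `ψ (e_ij) = ∑ r, star (c r i) * c r j`; extend linearly: `ψ x = ∑ x_ij ψ (e_ij)`.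
`∑ r, ∑ i, star (c r i) * c r i = ψ 1`, of norm `≤ ‖1‖ ≤ 1`. -/
def S_CHOI : Prop := ∀ (D : Type) [NonUnitalCStarAlgebra D] (m : ℕ)
  (ψ : CStarMatrix (Fin m) (Fin m) ℂ →ₗ[ℂ] D), IsCP ψ → (∀ x, ‖ψ x‖ ≤ ‖x‖) →
  ∃ c : Fin m → Fin m → D, (∀ x, ψ x = ∑ r, qf x (c r)) ∧
    ‖∑ r, ∑ i, star (c r i) * c r i‖ ≤ 1

/-- STINE: Stinespring dilation of a completely positive contraction into matrices. Proof: on the
vector space `X = (Fin m → D)` put `⟨x, y⟩ = ∑ i, ∑ j, φ (star (x i) * y j) i j`. It is positive: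
let `a ∈ M_m(D)` have first row `x` and other rows `0`; by `IsCP` there is `c ∈ M_m(M_m(ℂ))` with
`φ (star (x i) * x j) = ∑ r, star (c r i) * c r j`, so
`⟨x, x⟩ = ∑ r, ∑ l, ‖∑ i, (c r i) l i‖ ^ 2`. (This is the GNS form of the positive functional
`a ↦ ∑ i, ∑ j, φ (a i j) i j` on `M_m(D)`; one may use
`PositiveLinearMap.gnsNonUnitalStarAlgHom` for it and `a ↦ d ⊗ e_00`.) `π d` is left
multiplication by `d` on the completion `H`: with `b = (‖d‖ ^ 2 - star d * d) ^ (1/2)` in the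
unitization, `‖d‖ ^ 2 ⟨x, x⟩ - ⟨d x, d x⟩ = ⟨b x, b x⟩ ≥ 0`. Let `w i` be the vector that
represents the functional `y ↦ ∑ j, φ (y j) i j`: for `z : Fin m → ℂ` and an approximate unit `e`
one has `∑ i, conj (z i) * ∑ j, φ (y j) i j = lim ⟨(z i • e)_i, y⟩` and
`⟨(z i • e)_i, (z i • e)_i⟩ = ∑ i, ∑ j, conj (z i) * z j * φ (e * e) i j ≤ ‖φ (e * e)‖ ∑ ‖z i‖ ^ 2
≤ ∑ ‖z i‖ ^ 2`, so by Cauchy-Schwarz the functional is bounded and `Ctr w`. Finally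
`π d (w j)` is the class of the vector with entry `d` at `j` and `0` elsewhere (test against `y`:
`⟪π d (w j), [y]⟫ = ⟪w j, [star d * y]⟫ = ∑ l, φ (star d * y l) j l`), so
`⟪w i, π d (w j)⟫ = ⟪w i, [d at j]⟫ = φ d i j`. (`φ` is `*`-preserving: it maps positive elements
to positive elements.) -/
def S_STINE : Prop := ∀ (D : Type) [NonUnitalCStarAlgebra D] (m : ℕ)
  (φ : D →ₗ[ℂ] CStarMatrix (Fin m) (Fin m) ℂ), IsCP φ → (∀ x, ‖φ x‖ ≤ ‖x‖) →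
  ∃ (H : Type) (_ : NormedAddCommGroup H) (_ : InnerProductSpace ℂ H) (_ : CompleteSpace H)
    (π : D →⋆ₙₐ[ℂ] (H →L[ℂ] H)) (w : Fin m → H), Ctr w ∧
      ∀ d i j, φ d i j = ⟪w i, π d (w j)⟫_ℂ

/-- CMP: compression to a finite-dimensional subspace. Proof: `b` an orthonormal basis of `K`,
`Θ T p q = ⟪b p, T (b q)⟫`, `co x p = ⟪b p, x⟫`. The norm bound: `S_MN` and
`∑ conj (z p) * Θ T p q * w q = ⟪∑ z p • b p, T (∑ w q • b q)⟫`. -/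
def S_CMP : Prop := ∀ (H : Type) [NormedAddCommGroup H] [InnerProductSpace ℂ H] [CompleteSpace H]
  (K : Submodule ℂ H), FiniteDimensional ℂ K →
  ∃ (J : Type) (_ : Fintype J) (_ : DecidableEq J) (Θ : (H →L[ℂ] H) →ₗ[ℂ] CStarMatrix J J ℂ)
    (co : H →ₗ[ℂ] (J → ℂ)), (∀ T, ‖Θ T‖ ≤ ‖T‖) ∧ (∀ T, Θ (star T) = star (Θ T)) ∧
    (∀ S T : H →L[ℂ] H, (∀ x, T x ∈ K) → Θ (S * T) = Θ S * Θ T) ∧
    (∀ x, ∑ p, ‖co x p‖ ^ 2 ≤ ‖x‖ ^ 2) ∧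
    ∀ (T : H →L[ℂ] H), ∀ x ∈ K, ∀ y ∈ K,
      ⟪x, T y⟫_ℂ = ∑ p, ∑ q, conj (co x p) * Θ T p q * co y q

/-- LADR: the ladder of subspaces. Proof: recursion,
`V (q + 1) = V q ⊔ ⨆ a ∈ S, ((V q).map a ⊔ (V q).map (star a))`. -/
def S_LADR : Prop := ∀ (H : Type) [NormedAddCommGroup H] [InnerProductSpace ℂ H]
  [CompleteSpace H] (S : Finset (H →L[ℂ] H)) (V₀ : Submodule ℂ H), FiniteDimensional ℂ V₀ →
  ∃ V : ℕ → Submodule ℂ H, V 0 = V₀ ∧ Monotone V ∧ (∀ q, FiniteDimensional ℂ (V q)) ∧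
    ∀ a ∈ S, ∀ q, ∀ x ∈ V q, a x ∈ V (q + 1) ∧ (star a : H →L[ℂ] H) x ∈ V (q + 1)

/-- BAND. Proof: let `Q 0 = P 0`, `Q (q + 1) = P (q + 1) - P q`, mutually orthogonal projections.
`(1 - P q) a P q = Q (q + 1) a Q q` because `a P q = P (q + 1) a P q` and, for `q ≥ 1`,
`a P (q - 1) = P q a P (q - 1)`, so `Q (q + 1) a P (q - 1) = 0`. For a vector `x`, by Pythagoras
(orthogonal ranges) `‖∑ l q • Q (q + 1) a Q q x‖ ^ 2 = ∑ |l q| ^ 2 ‖Q (q + 1) a Q q x‖ ^ 2 ≤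
δ ^ 2 ‖a‖ ^ 2 ∑ ‖Q q x‖ ^ 2 ≤ δ ^ 2 ‖a‖ ^ 2 ‖x‖ ^ 2`. So `‖∑ l q • (1 - P q) a P q‖ ≤ δ ‖a‖`, and
the same for `star a`, i.e. `‖∑ l q • P q a (1 - P q)‖ ≤ δ ‖a‖`. The commutator is the difference
`∑ l q • P q a (1 - P q) - ∑ l q • (1 - P q) a P q`. -/
def S_BAND : Prop := ∀ (H : Type) [NormedAddCommGroup H] [InnerProductSpace ℂ H]
  [CompleteSpace H] (N : ℕ) (P : ℕ → (H →L[ℂ] H)) (a : H →L[ℂ] H) (l : ℕ → ℝ) (δ : ℝ),
  (∀ q, star (P q) = P q) → (∀ q r, q ≤ r → P q * P r = P q) →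
  (∀ q, a * P q = P (q + 1) * a * P q) → (∀ q, star a * P q = P (q + 1) * star a * P q) →
  0 ≤ δ → (∀ q, q < N → |l q| ≤ δ) →
  ‖(∑ q ∈ Finset.range N, (l q : ℂ) • P q) * a - a * ∑ q ∈ Finset.range N, (l q : ℂ) • P q‖ ≤
    2 * δ * ‖a‖

/-- WIN: window operators of a ladder. Proof: `P q` = orthogonal projection on `V q`,
`Op c = ∑ q ∈ range N, (c q - c (q + 1)) • P q` for real sequences `c` with `c q = 0` for
`q ≥ N`; `C i = Op (c i)`. With `Q 0 = P 0`, `Q (q + 1) = P (q + 1) - P q` (mutually orthogonal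
projections) `Op c = ∑ q ∈ range N, c q • Q q` (summation by parts, `c N = 0`), so
`Op c * Op c' = Op (c * c')`, `star (Op c) = Op c`, and `0 ≤ ⟪x, Op c x⟫ ≤ ‖x‖ ^ 2` for
`0 ≤ c ≤ 1` (as `∑ q < N, Q q = P (N - 1)`). Then `∑ i, ‖C i x‖ ^ 2 = ⟪x, Op (∑ c i ^ 2) x⟫`,
`C i * C j = Op (c i * c j)`, `C i * (1 - ∑ C j * C j) = Op (c i * (1 - ∑ c j ^ 2))`. The
commutator bound is `S_BAND` with `l q = c i q - c i (q + 1)` (`a P q = P (q + 1) a P q` as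
`a (V q) ⊆ V (q + 1)`). `P q x = x` for `x ∈ V 0`, so `C i x = (c i 0 - c i N) • x`.
(`N = 0`: everything is `0`.) -/
def S_WIN : Prop := ∀ (H : Type) [NormedAddCommGroup H] [InnerProductSpace ℂ H] [CompleteSpace H]
  (V : ℕ → Submodule ℂ H), Monotone V → (∀ q, FiniteDimensional ℂ (V q)) →
  ∀ (S : Finset (H →L[ℂ] H)),
    (∀ a ∈ S, ∀ q, ∀ x ∈ V q, a x ∈ V (q + 1) ∧ (star a : H →L[ℂ] H) x ∈ V (q + 1)) →
  ∀ (n N : ℕ) (c : Fin n → ℕ → ℝ) (δ : ℝ), (∀ i q, N ≤ q → c i q = 0) →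
    (∀ i q, |c i q - c i (q + 1)| ≤ δ) → 0 ≤ δ → (∀ q, ∑ i, c i q ^ 2 ≤ 1) →
    (∀ (i j : Fin n) q, (i : ℕ) + 2 ≤ j → c i q * c j q = 0) →
    ∃ C : Fin n → (H →L[ℂ] H), (∀ i, star (C i) = C i) ∧ (∀ i j, C i * C j = C j * C i) ∧
      (∀ x, ∑ i, ‖C i x‖ ^ 2 ≤ ‖x‖ ^ 2) ∧
      (∀ i j : Fin n, (i : ℕ) + 2 ≤ j → C i * C j = 0) ∧
      (∀ i, ∀ a ∈ S, ‖C i * a - a * C i‖ ≤ 2 * δ * ‖a‖) ∧ (∀ i x, C i x ∈ V N) ∧
      (∀ i, ∀ x ∈ V 0, C i x = (c i 0 : ℂ) • x) ∧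
      ∀ i, (∀ q, c i q ≠ 0 → ∑ j, c j q ^ 2 = 1) → C i * (1 - ∑ j, C j * C j) = 0

/-- WB: window sums. Proof: `|⟪y, ∑ C i a i C i x⟫| ≤ ∑ ‖C i y‖ ‖a i‖ ‖C i x‖ ≤
c (∑ ‖C i y‖ ^ 2) ^ (1/2) (∑ ‖C i x‖ ^ 2) ^ (1/2) ≤ c ‖y‖ ‖x‖`. -/
def S_WB : Prop := ∀ (H : Type) [NormedAddCommGroup H] [InnerProductSpace ℂ H] [CompleteSpace H]
  (n : ℕ) (C a : Fin n → (H →L[ℂ] H)) (c : ℝ), 0 ≤ c → (∀ i, star (C i) = C i) →
  (∀ x, ∑ i, ‖C i x‖ ^ 2 ≤ ‖x‖ ^ 2) → (∀ i, ‖a i‖ ≤ c) → ‖∑ i, C i * a i * C i‖ ≤ c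

/-- MULT. Proof: `‖C i‖ ≤ 1`. The product is `∑ i, ∑ j, C i a i C i C j b j C j`. Replace
`b j C j` by `C j b j` and then `C i (C j C j) b j = C j C j C i b j` by `C j C j b j C i`: error
`≤ 2 d` for every pair, `2 n ^ 2 d` in total, and the product becomes
`∑ i, C i a i (∑ j, C j C j b j) C i`. Fix `i`. For `|i - j| ≥ 2`,
`C j C j b j C i = C j C j (b j C i - C i b j)` has norm `≤ d`. For `|i - j| ≤ 1`,
`C j C j b j C i = C j C j (b j - b i) C i + C j C j b i C i`; let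
`X i = ∑_{|i-j| ≤ 1} C j C j (b j - b i)`, `‖X i‖ ≤ 2 e` (the term `j = i` is `0`). And
`∑_{|i-j| ≤ 1} C j C j b i C i = ∑_{|i-j| ≤ 1} C j C j C i b i + O(3 d)
= (∑ j, C j C j) C i b i + O(3 d)`. If `C i (1 - ∑ C j C j) = 0` this is
`C i b i = b i C i + O(d)`; put `Y i = 0`. If `‖b i‖ ≤ e`, it is `(∑ j, C j C j) b i C i + O(d)
= (b i + Y i) C i + O(d)` with `Y i = (∑ C j C j - 1) b i`, `‖Y i‖ ≤ e` (`0 ≤ ∑ C j C j ≤ 1`). So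
`∑ j, C j C j b j C i = (b i + X i + Y i) C i + O((n + 4) d)`, and the product is
`∑ i, C i (a i (b i + X i + Y i)) C i + O((2 n ^ 2 + n (n + 4)) d)`; by `S_WB`
`‖∑ i, C i (a i (X i + Y i)) C i‖ ≤ 3 e`. -/
def S_MULT : Prop := ∀ (H : Type) [NormedAddCommGroup H] [InnerProductSpace ℂ H]
  [CompleteSpace H] (n : ℕ) (C a b : Fin n → (H →L[ℂ] H)) (d e : ℝ), 0 ≤ d → 0 ≤ e →
  (∀ i, star (C i) = C i) → (∀ i j, C i * C j = C j * C i) →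
  (∀ x, ∑ i, ‖C i x‖ ^ 2 ≤ ‖x‖ ^ 2) → (∀ i j : Fin n, (i : ℕ) + 2 ≤ j → C i * C j = 0) →
  (∀ i, ‖a i‖ ≤ 1) → (∀ i, ‖b i‖ ≤ 1) →
  (∀ i j, ‖C i * a j - a j * C i‖ ≤ d) → (∀ i j, ‖C i * b j - b j * C i‖ ≤ d) →
  (∀ i j : Fin n, (i : ℕ) ≤ j + 1 → (j : ℕ) ≤ i + 1 → ‖b i - b j‖ ≤ e) →
  (∀ i, C i * (1 - ∑ j, C j * C j) = 0 ∨ ‖b i‖ ≤ e) →
  ‖(∑ i, C i * (a i * b i) * C i) - (∑ i, C i * a i * C i) * ∑ j, C j * b j * C j‖ ≤
    4 * e + 10 * (n : ℝ) ^ 2 * d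

/-- LADC: the window operators for functions. Proof (section 1.5): let `e = ε / 40`. Choose
`r ∈ (0, 1]` with `‖f t - f t'‖ ≤ e` for `|t - t'| ≤ r` and `M` with `‖f t‖ ≤ e` for `|t| ≥ M`
(`f ∈ F`; functions vanishing at infinity are uniformly continuous), and `n0 ∈ ℕ` with
`n0 r ≥ M + |s| + 2`. The window is `|i| ≤ n0`, indexed by `Fin n`, `n = 2 n0 + 1`,
`ix i = i - n0 ∈ ℤ`, `t i = ix i * r`. Choose `k > 0` with `10 n ^ 2 * 2 √(k / r) ≤ ε / 4`, and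
`N` with `s + N k ≥ (n0 + 1) r`. Let `V` be the ladder (`S_LADR`) of
`S = {π (f (t i)) : f ∈ F, i}` and `V₀ = span (w l)`, `c i q = √(lam r (ix i) (s + q k))` (it is
`0` for `q ≥ N`), `δ = √(k / r)`, `C` from `S_WIN` (its conditions are `S_TENT`), `K = V N`,
`wt i = c i 0`. If `ix i < n0` and `c i q ≠ 0` then `x = s + q k` satisfies
`x < (ix i + 1) r ≤ n0 r` and `x ≥ s ≥ - n0 r`, so the tent functions of the window sum to `1` at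
`x`: the last property of `S_WIN` gives `C i (1 - ∑ C j C j) = 0`. If `ix i = n0`,
`‖g (n0 r)‖ ≤ e`. `S_MULT` with `a i = π (f (t i))`, `b i = π (g (t i))`, `d = 2 δ`, `e`:
the difference is `≤ 4 e + 10 n ^ 2 * 2 δ < ε`. The tent functions of the window sum to `1` at
`s`, and `wt i ≠ 0` implies `|s - t i| < r`. -/
def S_LADC : Prop := ∀ (D : Type) [NonUnitalCStarAlgebra D] (H : Type) [NormedAddCommGroup H]
  [InnerProductSpace ℂ H] [CompleteSpace H] (π : D →⋆ₙₐ[ℂ] (H →L[ℂ] H)) (m : ℕ)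
  (w : Fin m → H) (s : ℝ) (F : Finset C₀(ℝ, D)) (ε : ℝ), 0 < ε → (∀ f ∈ F, ‖f‖ ≤ 1) →
  ∃ (n : ℕ) (t : Fin n → ℝ) (C : Fin n → (H →L[ℂ] H)) (K : Submodule ℂ H) (wt : Fin n → ℝ),
    FiniteDimensional ℂ K ∧ (∀ l, w l ∈ K) ∧ (∀ i, star (C i) = C i) ∧
    (∀ x, ∑ i, ‖C i x‖ ^ 2 ≤ ‖x‖ ^ 2) ∧ (∀ i x, C i x ∈ K) ∧
    (∀ f ∈ F, ∀ g ∈ F, ‖(∑ i, C i * π ((f * g) (t i)) * C i) -
      (∑ i, C i * π (f (t i)) * C i) * ∑ j, C j * π (g (t j)) * C j‖ < ε) ∧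
    (∀ i l, C i (w l) = (wt i : ℂ) • w l) ∧ ∑ i, wt i ^ 2 = 1 ∧
    ∀ f ∈ F, ∀ i, wt i ≠ 0 → ‖f (t i) - f s‖ < ε

/-- LAD: the ladder lemma. Proof (section 1.5): first let `‖f‖ ≤ 1` for `f ∈ F`. Take
`S_LADC` (with `ε / 2`), `S_CMP` for `K` gives `Θ`, `co`; define
`Φ f = Θ (∑ i, C i * π (f (t i)) * C i)`, `u p l = co (w l) p`. `Φ` is linear, `*`-preserving,
contractive by `S_WB`. As the range of `C i` is in `K`,
`Φ f * Φ g = Θ ((∑ C i π(f (t i)) C i) (∑ C j π(g (t j)) C j))`, so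
`‖Φ (f g) - Φ f Φ g‖ < ε`. The condition on `u`: `∑ l, u p l * z l = co (∑ z l • w l) p` and
`Ctr w`. Finally `∑ conj (u p i) * Φ f p q * u q j = ⟪w i, (∑ l, C l π(f (t l)) C l) (w j)⟫
= ∑ l, wt l ^ 2 • ⟪w i, π (f (t l)) (w j)⟫` (`C l` is self-adjoint), it differs from
`⟪w i, π (f s) (w j)⟫` by at most `ε / 2` (`∑ wt l ^ 2 = 1`, `‖w i‖ ≤ 1` by `Ctr w`). The general
case: let `T = 1 + ∑ f ∈ F, ‖f‖`, apply the special case to `{T⁻¹ • f : f ∈ F}` and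
`ε / (T + 1) ^ 2`. -/
def S_LAD : Prop := ∀ (D : Type) [NonUnitalCStarAlgebra D] (H : Type) [NormedAddCommGroup H]
  [InnerProductSpace ℂ H] [CompleteSpace H] (π : D →⋆ₙₐ[ℂ] (H →L[ℂ] H)) (m : ℕ)
  (w : Fin m → H), Ctr w → ∀ (s : ℝ) (F : Finset C₀(ℝ, D)) (ε : ℝ), 0 < ε →
  ∃ (J : Type) (_ : Fintype J) (_ : DecidableEq J) (Φ : C₀(ℝ, D) →ₗ[ℂ] CStarMatrix J J ℂ)
    (u : J → Fin m → ℂ), (∀ f, ‖Φ f‖ ≤ ‖f‖) ∧ (∀ f, Φ (star f) = star (Φ f)) ∧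
    (∀ z : Fin m → ℂ, ∑ p, ‖∑ i, u p i * z i‖ ^ 2 ≤ ∑ i, ‖z i‖ ^ 2) ∧
    (∀ f ∈ F, ∀ g ∈ F, ‖Φ (f * g) - Φ f * Φ g‖ < ε) ∧
    ∀ f ∈ F, ∀ i j, ‖(∑ p, ∑ q, conj (u p i) * Φ f p q * u q j) - ⟪w i, π (f s) (w j)⟫_ℂ‖ < ε

/-- Q: suspensions of nuclear algebras have property (Q). Proof (section 1.6): `S_PU` for `F` and
`ε / 4` gives `I, s, g`. Nuclearity for `{f (s i)}` and `ε / 4` gives `m, φ, ψ`; `S_CHOI` gives
`c`; `S_STINE` gives `H, π, w`; `S_LAD` for every `s i`, with `F` and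
`ε' = ε / (4 (m ^ 2 + 1))` (and `ε' ≤ ε`), gives `J i, Φ i, u i`. Let `J = Σ k : I × Fin m, J k.1`
and `Φ f = β (fun k => Φ k.1 f)` (`S_BD`),
`y ⟨(i, r), p⟩ = tens (g i) (∑ l, u i p l • c r l)`. `Φ` is linear, contractive, `*`-preserving
and `ε`-multiplicative on `F` (the norm of a block diagonal matrix is the maximum). Let
`G i f ∈ M_m(ℂ)` be the matrix `∑ p, ∑ q, conj (u p l) * Φ i f p q * u q l'`. Then
`qf (Φ f) y t = ∑ i, ∑ r, g i t ^ 2 • qf (G i f) (c r) = ∑ i, g i t ^ 2 • ψ (G i f)`, and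
`‖G i f - φ (f (s i))‖ ≤ m ^ 2 ε'` (sum of the entries), so `qf (Φ f) y t` differs from
`∑ i, g i t ^ 2 • f (s i)` by less than `ε / 2`. Similarly
`(∑ star y * y) t = ∑ i, g i t ^ 2 • ψ (U i)`, `U i` the matrix `∑ p, conj (u p l) * u p l'`, of
norm `≤ 1` (`S_MN`), so the norm of `∑ star y * y` is `≤ 1`. -/
def S_Q : Prop := ∀ (D : Type) [NonUnitalCStarAlgebra D], Nuclear D → PQ C₀(ℝ, D)

/-! ## The algebra `E` -/

/-- A sequence that realises property (Q). -/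
structure QSeq (Y : Type) [NonUnitalCStarAlgebra Y] where
  J : ℕ → Type
  fin : ∀ n, Fintype (J n)
  dec : ∀ n, DecidableEq (J n)
  Φ : ∀ n, Y →ₗ[ℂ] CStarMatrix (J n) (J n) ℂ
  y : ∀ n, J n → Y
  contr : ∀ n f, ‖Φ n f‖ ≤ ‖f‖
  starmap : ∀ n f, Φ n (star f) = star (Φ n f)
  col : ∀ n, ‖∑ p, star (y n p) * y n p‖ ≤ 1
  mul : ∀ f g, Tendsto (fun n => ‖Φ n (f * g) - Φ n f * Φ n g‖) atTop (𝓝 0)
  app : ∀ f, Tendsto (fun n => ‖qf (Φ n f) (y n) - f‖) atTop (𝓝 0)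

attribute [instance] QSeq.fin QSeq.dec

/-- QSEQ. Proof: `d` dense in `Y`; take `(J n, Φ n, y n)` from property (Q) for
`{d i : i ≤ n}` and `1 / (n + 1)`. The limits hold for `f = d i`, `g = d j`; extend by density:
`‖Φ(fg) - Φ f Φ g‖` changes by at most `2 (‖f‖ ‖g - g'‖ + ‖f - f'‖ ‖g'‖)`, and
`‖qf (Φ (f - f')) y‖ ≤ ‖f - f'‖` by `S_COL`. (`Y` is nonempty; use `denseSeq`.) -/
def S_QSEQ : Prop := ∀ (Y : Type) [NonUnitalCStarAlgebra Y] [TopologicalSpace.SeparableSpace Y],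
  PQ Y → Nonempty (QSeq Y)

/-- `E` is the algebra of all pairs `((z n), f)`, `z n` in the `n`-th matrix algebra, `f ∈ Y`,
with `‖z n - Φ n f‖ → 0`. -/
structure IsE {Y : Type} [NonUnitalCStarAlgebra Y] (S : QSeq Y) (E : Type)
    [NonUnitalCStarAlgebra E] (x : ∀ n, E →⋆ₙₐ[ℂ] CStarMatrix (S.J n) (S.J n) ℂ)
    (ρ : E →⋆ₙₐ[ℂ] Y) : Prop where
  lim : ∀ e, Tendsto (fun n => ‖x n e - S.Φ n (ρ e)‖) atTop (𝓝 0)
  norm_le : ∀ e c, 0 ≤ c → (∀ n, ‖x n e‖ ≤ c) → ‖ρ e‖ ≤ c → ‖e‖ ≤ c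
  ex : ∀ (z : ∀ n, CStarMatrix (S.J n) (S.J n) ℂ) (f : Y),
    Tendsto (fun n => ‖z n - S.Φ n f‖) atTop (𝓝 0) → ∃ e, (∀ n, x n e = z n) ∧ ρ e = f

/-- ESTR: existence of `E`. Proof: the set of all `(z, f) ∈ ℓ^∞(M_{J n}(ℂ)) × Y` (a C*-algebra:
`lp _ ∞` and products are C*-algebras in Mathlib) with `‖z n - Φ n f‖ → 0` is a closed
`*`-subalgebra: `‖z z' - Φ (f f')‖ ≤ ‖z‖ ‖z' - Φ f'‖ + ‖z - Φ f‖ ‖f'‖ + ‖Φ f Φ f' - Φ (f f')‖`;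
a sequence `z` with `‖z n - Φ n f‖ → 0` is bounded because `‖Φ n f‖ ≤ ‖f‖`. Closed
`*`-subalgebras are C*-algebras (`NonUnitalStarSubalgebra.nonUnitalCStarAlgebra`). -/
def S_ESTR : Prop := ∀ (Y : Type) [NonUnitalCStarAlgebra Y] (S : QSeq Y),
  ∃ (E : Type) (_ : NonUnitalCStarAlgebra E)
    (x : ∀ n, E →⋆ₙₐ[ℂ] CStarMatrix (S.J n) (S.J n) ℂ) (ρ : E →⋆ₙₐ[ℂ] Y), IsE S E x ρ

/-- ESEP: `E` is separable. Proof: let `D ⊆ Y` and `Q n ⊆ M_{J n}(ℂ)` be countable dense subsets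
(`0 ∈ Q n`). For `f ∈ D`, `N ∈ ℕ` and `q n ∈ Q n` (`n < N`) choose by `ex` the element `e` with
`x n e = q n` for `n < N`, `x n e = Φ n f` for `n ≥ N`, `ρ e = f`. These countably many elements
are dense: given `e` and `ε`, choose `f ∈ D` with `‖f - ρ e‖ ≤ ε / 2` and `N` with
`‖x n e - Φ n (ρ e)‖ ≤ ε / 2` for `n ≥ N`, `q n` with `‖q n - x n e‖ ≤ ε` for `n < N`, and use
`norm_le`. -/
def S_ESEP : Prop := ∀ (Y : Type) [NonUnitalCStarAlgebra Y] [TopologicalSpace.SeparableSpace Y]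
  (S : QSeq Y) (E : Type) [NonUnitalCStarAlgebra E]
  (x : ∀ n, E →⋆ₙₐ[ℂ] CStarMatrix (S.J n) (S.J n) ℂ) (ρ : E →⋆ₙₐ[ℂ] Y), IsE S E x ρ →
  TopologicalSpace.SeparableSpace E

/-- EZ: the kernel of `ρ` is type I. Proof: `Z = {e : ρ e = 0}`, a closed `*`-subalgebra of `E`,
separable as a subset of a separable metric space. For `e ∈ Z`, `‖x n e‖ → 0` (`lim`), and by
`ex` and `norm_le` `Z` is the closed span of the elements `[n; a]`, `a ∈ M_{J n}(ℂ)`, with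
`x n [n; a] = a`, `x k [n; a] = 0` for `k ≠ n`, `ρ [n; a] = 0`. Let `π : Z → A'` be surjective,
`A' ≠ 0`. Then `π [n; a] ≠ 0` for some `n`, `a`; as `a = ∑ e_pp a`, `π [n; e_pp] ≠ 0` for some
`p`. The element `h = π [n; e_pp]` is self-adjoint, and `h π(z) h = z_pp • h` where `z_pp` is the
entry of `x n z`, so `h A' h` is commutative. -/
def S_EZ : Prop := ∀ (Y : Type) [NonUnitalCStarAlgebra Y] (S : QSeq Y) (E : Type)
  [NonUnitalCStarAlgebra E] [TopologicalSpace.SeparableSpace E]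
  (x : ∀ n, E →⋆ₙₐ[ℂ] CStarMatrix (S.J n) (S.J n) ℂ) (ρ : E →⋆ₙₐ[ℂ] Y), IsE S E x ρ →
  ∃ (Z : Type) (_ : NonUnitalCStarAlgebra Z) (ι : Z →⋆ₙₐ[ℂ] E),
    TopologicalSpace.SeparableSpace Z ∧ IsTypeI Z ∧ Function.Injective ι ∧
    ∀ e, ρ e = 0 ↔ e ∈ Set.range ι

/-- EN: `E` has property (N). Proof (section 2): let `G ⊆ E` be finite, `ε > 0`,
`T ≥ 1 + ‖e‖` for `e ∈ G`, `e' = ε / 20`, `e'' > 0` with `e'' (1 + T) ≤ e'` and `e'' ≤ 1`. By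
`lim` and `app` choose `n0` with `‖x n0 e - Φ n0 (ρ e)‖ ≤ e'` and
`‖qf (Φ n0 (ρ e)) (y n0) - ρ e‖ ≤ e'` for `e ∈ G`. Let `y = y n0`, `L` the cardinality of
`J n0`. Choose `N` such that for `n ≥ N`: `‖Φ n (star (y p) * y q) - star (Φ n (y p)) * Φ n (y q)‖
≤ e'' / (L ^ 2 + 1)` for all `p, q` and `‖x n e - Φ n (ρ e)‖ ≤ e'` for `e ∈ G`. The index set is
`(Σ n : Fin N, J n) ⊕ J n0`, equivalently the sigma type over `Option (Fin N)`; `σ e` is the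
block diagonal matrix with blocks `x n e` (`n < N`) and `x n0 e` (`S_BD`). The vectors (`ex`): for
`n < N`, `p ∈ J n`: `v (n, p)` has the `n`-th entry `e_{0p}` (`0` a fixed element of `J n`), the
other entries and the image in `Y` are `0`; for `p ∈ J n0`: `v p = c • V p` with
`x n (V p) = 0` for `n < N`, `x n (V p) = Φ n (y p)` for `n ≥ N`, `ρ (V p) = y p`,
`c = (1 + e'') ^ (-1/2)`. Then `qf (σ e) v` has at `n < N` the entry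
`∑ p q, (x n e)_pq • e_p0 e_0q = x n e` exactly; at `n ≥ N` the entry
`c ^ 2 • ∑ (x n0 e)_pq • star (Φ n (y p)) * Φ n (y q)`, which is within `‖x n0 e‖ e''` of
`c ^ 2 • Φ n (qf (x n0 e) y)`, within `e'` of `c ^ 2 • Φ n (qf (Φ n0 (ρ e)) y)` (`S_COL`), within
`e'` of `c ^ 2 • Φ n (ρ e)`, within `e'' T` of `Φ n (ρ e)`, within `e'` of `x n e`; in `Y` the
image is `c ^ 2 • qf (x n0 e) y`, similarly close to `ρ e`. Use `norm_le`. The sum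
`∑ star v * v` has at `n < N` the entry `1`, at `n ≥ N` the entry
`c ^ 2 • ∑ star (Φ n (y p)) * Φ n (y p)` of norm
`≤ c ^ 2 (‖Φ n (∑ star (y p) * y p)‖ + e'') ≤ 1`, and the image in `Y` has norm
`≤ c ^ 2 ≤ 1`. -/
def S_EN : Prop := ∀ (Y : Type) [NonUnitalCStarAlgebra Y] (S : QSeq Y) (E : Type)
  [NonUnitalCStarAlgebra E] (x : ∀ n, E →⋆ₙₐ[ℂ] CStarMatrix (S.J n) (S.J n) ℂ)
  (ρ : E →⋆ₙₐ[ℂ] Y), IsE S E x ρ → PN E

/-- E: separable algebras with property (Q) are quotients with type I kernel of separable algebras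
with property (N). -/
def S_E : Prop := ∀ (Y : Type) [NonUnitalCStarAlgebra Y] [TopologicalSpace.SeparableSpace Y],
  PQ Y → ∃ (E : Type) (_ : NonUnitalCStarAlgebra E) (_ : TopologicalSpace.SeparableSpace E)
    (ρ : E →⋆ₙₐ[ℂ] Y) (Z : Type) (_ : NonUnitalCStarAlgebra Z) (ι : Z →⋆ₙₐ[ℂ] E),
    PN E ∧ Function.Surjective ρ ∧ TopologicalSpace.SeparableSpace Z ∧ IsTypeI Z ∧
    Function.Injective ι ∧ ∀ e, ρ e = 0 ↔ e ∈ Set.range ι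

/-- NS: property (N) passes to suspensions. Proof (section 3.1): `S_PU` for `F` and `ε / 2` gives
`I, s, g`; property (N) for `{f (s i)}` and `ε / 4` gives `J, σ, v`. On `Σ i : I, J` take
`σ' f = β (fun i => σ (f (s i)))` (`S_BD`) and `v' ⟨i, p⟩ = tens (g i) (v p)`. Then
`qf (σ' f) v' t = ∑ i, g i t ^ 2 • qf (σ (f (s i))) v`, within `ε / 4` of
`∑ i, g i t ^ 2 • f (s i)`, and `(∑ star v' * v') t = (∑ i, g i t ^ 2) • ∑ star v * v`. (The norm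
of a function is `≤ c` iff all its values have norm `≤ c`.) -/
def S_NS : Prop := ∀ (E : Type) [NonUnitalCStarAlgebra E], PN E → PN C₀(ℝ, E)

/-- Assembly of (d). -/
theorem e_of (hQ : S_QSEQ) (h1 : S_ESTR) (h2 : S_ESEP) (h3 : S_EZ) (h4 : S_EN) : S_E := by
  intro Y _ _ hY
  obtain ⟨S⟩ := hQ Y hY
  obtain ⟨E, iE, x, ρ, hE⟩ := h1 Y S
  have hs : TopologicalSpace.SeparableSpace E := h2 Y S E x ρ hE
  obtain ⟨Z, iZ, ι, hZ1, hZ2, hZ3, hZ4⟩ := h3 Y S E x ρ hE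
  refine ⟨E, iE, hs, ρ, Z, iZ, ι, h4 Y S E x ρ hE, ?_, hZ1, hZ2, hZ3, hZ4⟩
  intro f
  obtain ⟨e, -, he⟩ := hE.ex (fun n => S.Φ n f) f (by simp)
  exact ⟨e, he⟩

end Pool.Agent.Helper61.CAR
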