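import Pool.Agent.Helper61.CAR.GoalsQ

/-!
# Project CAR, packet CMP: compression to a finite-dimensional subspace
-/

set_option autoImplicit false

open scoped ComplexOrder InnerProductSpace ComplexConjugate

namespace Pool.Agent.Helper61.CAR

theorem cmp_norm_sum {H : Type} [NormedAddCommGroup H] [InnerProductSpace ℂ H] {J : Type}
    [Fintype J] {b : J → H} (hb : Orthonormal ℂ b) (z : J → ℂ) :
    ‖∑ p, z p • b p‖ = Real.sqrt (∑ p, ‖z p‖ ^ 2) := by
  rw [eq_comm, Real.sqrt_eq_iff_mul_self_eq (by positivity) (norm_nonneg _)]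
  have h1 := hb.inner_sum z z Finset.univ
  have h2 := inner_self_eq_norm_mul_norm (𝕜 := ℂ) (∑ p, z p • b p)
  rw [h1] at h2
  rw [← h2, map_sum]
  refine Finset.sum_congr rfl fun p _ => ?_
  rw [RCLike.conj_mul]
  norm_cast

theorem cmp (hMN : S_MN) : S_CMP := by
  intro H _ _ _ K hK
  let e := stdOrthonormalBasis ℂ K
  let b : Fin (Module.finrank ℂ K) → H := fun p => (e p : H)
  have hb : Orthonormal ℂ b := e.orthonormal.comp_linearIsometry K.subtypeₗᵢ
  have hrep : ∀ x ∈ K, ∑ p, ⟪b p, x⟫_ℂ • b p = x := by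
    intro x hx
    have h1 := e.sum_repr' ⟨x, hx⟩
    have h2 := congrArg (fun y : K => (y : H)) h1
    simpa using h2
  let Θ : (H →L[ℂ] H) →ₗ[ℂ] CStarMatrix (Fin (Module.finrank ℂ K)) (Fin (Module.finrank ℂ K)) ℂ :=
    { toFun := fun T => CStarMatrix.ofMatrix (Matrix.of fun p q => ⟪b p, T (b q)⟫_ℂ)
      map_add' := by
        intro S T
        ext p q
        simp [inner_add_right]
      map_smul' := by
        intro c T
        ext p q
        simp [inner_smul_right] }
  have hΘ : ∀ T p q, Θ T p q = ⟪b p, T (b q)⟫_ℂ := fun _ _ _ => rfl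
  let co : H →ₗ[ℂ] (Fin (Module.finrank ℂ K) → ℂ) :=
    { toFun := fun x p => ⟪b p, x⟫_ℂ
      map_add' := by
        intro x y
        ext p
        simp [inner_add_right]
      map_smul' := by
        intro c x
        ext p
        simp [inner_smul_right] }
  have hco : ∀ x p, co x p = ⟪b p, x⟫_ℂ := fun _ _ => rfl
  have hform : ∀ (T : H →L[ℂ] H) (z w : Fin (Module.finrank ℂ K) → ℂ),
      ⟪∑ p, z p • b p, T (∑ q, w q • b q)⟫_ℂ = ∑ p, ∑ q, conj (z p) * Θ T p q * w q := by
    intro T z w
    rw [sum_inner]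
    refine Finset.sum_congr rfl fun p _ => ?_
    rw [map_sum, inner_sum]
    refine Finset.sum_congr rfl fun q _ => ?_
    rw [map_smul, inner_smul_left, inner_smul_right, hΘ]
    ring
  refine ⟨Fin (Module.finrank ℂ K), inferInstance, inferInstance, Θ, co, ?_, ?_, ?_, ?_, ?_⟩
  · intro T
    refine hMN _ _ _ (norm_nonneg _) fun z w => ?_
    rw [← hform]
    refine (norm_inner_le_norm _ _).trans ?_
    rw [cmp_norm_sum hb z, mul_comm ‖T‖, mul_assoc]
    refine mul_le_mul_of_nonneg_left ?_ (Real.sqrt_nonneg _)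
    rw [← cmp_norm_sum hb w]
    exact T.le_opNorm _
  · intro T
    ext p q
    rw [CStarMatrix.star_apply, hΘ, hΘ, ContinuousLinearMap.star_eq_adjoint,
      ContinuousLinearMap.adjoint_inner_right]
    exact (inner_conj_symm _ _).symm
  · intro S T hT
    ext p q
    rw [CStarMatrix.mul_apply, hΘ]
    have h1 : (S * T) (b q) = S (T (b q)) := rfl
    rw [h1]
    conv_lhs => rw [← hrep _ (hT (b q))]
    rw [map_sum, inner_sum]
    refine Finset.sum_congr rfl fun r _ => ?_
    rw [map_smul, inner_smul_right, hΘ, hΘ, mul_comm]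
  · intro x
    have h1 := hb.sum_inner_products_le (s := Finset.univ) (x := x)
    simpa [hco] using h1
  · intro T x hx y hy
    rw [← hform]
    simp only [hco]
    rw [hrep x hx, hrep y hy]

end Pool.Agent.Helper61.CAR
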