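import Pool.Agent.Helper34.CAR.Mt
import Pool.Agent.Helper61.CAR.GoalsQ

/-!
# Project CAR, packet COL: the norm of a quadratic form
-/

set_option autoImplicit false

open scoped ComplexOrder

namespace Pool.Agent.Helper61.CAR

open Pool.Agent.Helper34.CAR

/-- Scalar matrices as matrices over `R`. -/
noncomputable def colScal (R : Type) [CStarAlgebra R] (J : Type) [Fintype J] [DecidableEq J] :
    CStarMatrix J J ℂ →⋆ₙₐ[ℂ] Mt J R where
  toFun a := Mt.of fun i j => algebraMap ℂ R (a i j)
  map_smul' c a := by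
    ext i j
    simp [Algebra.algebraMap_eq_smul_one, smul_smul]
  map_zero' := by
    ext i j
    simp
  map_add' a b := by
    ext i j
    simp
  map_mul' a b := by
    ext i j
    simp [CStarMatrix.mul_apply]
  map_star' a := by
    ext i j
    simp [CStarMatrix.star_apply, ← algebraMap_star_comm]

theorem col_unital (R : Type) [CStarAlgebra R] (J : Type) [Fintype J] [DecidableEq J]
    (a : CStarMatrix J J ℂ) (v : J → R) : ‖qf a v‖ ≤ ‖a‖ * ‖∑ p, star (v p) * v p‖ := by
  rcases isEmpty_or_nonempty J with hJ | ⟨⟨j0⟩⟩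
  · unfold qf
    simp
  · let V : Mt J R := Mt.of fun p q => if q = j0 then v p else 0
    have hVV : star V * V = Mt.single j0 j0 (∑ p, star (v p) * v p) := by
      ext p q
      rw [Mt.mul_apply, Mt.single_apply]
      simp only [Mt.star_apply, V, Mt.of_apply]
      by_cases hp : p = j0 <;> by_cases hq : q = j0 <;> simp [hp, hq]
    have hV : ‖V‖ * ‖V‖ ≤ ‖∑ p, star (v p) * v p‖ := by
      rw [← CStarRing.norm_star_mul_self, hVV]
      exact Mt.norm_single_le _ _ _
    have hq : (star V * colScal R J a * V) j0 j0 = qf a v := by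
      rw [mul_assoc, Mt.mul_apply]
      unfold qf
      refine Finset.sum_congr rfl fun p _ => ?_
      rw [Mt.mul_apply, Mt.star_apply, Finset.mul_sum]
      refine Finset.sum_congr rfl fun q _ => ?_
      have h1 : colScal R J a p q = algebraMap ℂ R (a p q) := rfl
      rw [h1]
      simp only [V, Mt.of_apply, if_true]
      rw [Algebra.algebraMap_eq_smul_one, smul_mul_assoc, one_mul, mul_smul_comm]
    rw [← hq]
    refine (Mt.norm_entry_le _ _ _).trans ?_
    refine (norm_mul_le _ _).trans ?_
    have h2 : ‖star V * colScal R J a‖ ≤ ‖V‖ * ‖a‖ := by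
      refine (norm_mul_le _ _).trans ?_
      rw [norm_star]
      exact mul_le_mul_of_nonneg_left (NonUnitalStarAlgHom.norm_apply_le _ _) (norm_nonneg _)
    calc ‖star V * colScal R J a‖ * ‖V‖ ≤ (‖V‖ * ‖a‖) * ‖V‖ :=
          mul_le_mul_of_nonneg_right h2 (norm_nonneg _)
      _ = ‖a‖ * (‖V‖ * ‖V‖) := by ring
      _ ≤ ‖a‖ * ‖∑ p, star (v p) * v p‖ := mul_le_mul_of_nonneg_left hV (norm_nonneg _)

theorem col : S_COL := by
  intro R _ J _ _ a v
  let i : R →⋆ₙₐ[ℂ] Unitization ℂ R := Unitization.inrNonUnitalStarAlgHom ℂ R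
  have hi : ∀ x, ‖i x‖ = ‖x‖ := fun x => Unitization.norm_inr (𝕜 := ℂ) x
  have h1 := col_unital (Unitization ℂ R) J a fun p => i (v p)
  have h2 : qf a (fun p => i (v p)) = i (qf a v) := by
    unfold qf
    rw [map_sum]
    refine Finset.sum_congr rfl fun p _ => ?_
    rw [map_sum]
    refine Finset.sum_congr rfl fun q _ => ?_
    rw [map_smul, map_mul, map_star]
  have h3 : ∑ p, star (i (v p)) * i (v p) = i (∑ p, star (v p) * v p) := by
    rw [map_sum]
    refine Finset.sum_congr rfl fun p _ => ?_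
    rw [map_mul, map_star]
  rw [h2, h3, hi, hi] at h1
  exact h1

end Pool.Agent.Helper61.CAR
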