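import Pool.Agent.Helper61.CAR.GoalsQ

/-!
# Project CAR, packet ESTR: existence of the algebra `E`
-/

set_option autoImplicit false

open scoped ComplexOrder Topology ENNReal
open Filter

namespace Pool.Agent.Helper61.CAR

open Pool.Agent.Helper34.CAR

noncomputable section

section

variable {Y : Type} [NonUnitalCStarAlgebra Y] (S : QSeq Y)

/-- The product of the matrix algebras and `Y`. -/
def EAmb : Type := lp (fun n => CStarMatrix (S.J n) (S.J n) ℂ) ∞ × Y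

instance : NonUnitalCStarAlgebra (EAmb S) :=
  inferInstanceAs (NonUnitalCStarAlgebra (lp (fun n => CStarMatrix (S.J n) (S.J n) ℂ) ∞ × Y))

theorem estr_add {z z' : ∀ n, CStarMatrix (S.J n) (S.J n) ℂ} {f f' : Y}
    (h : Tendsto (fun n => ‖z n - S.Φ n f‖) atTop (𝓝 0))
    (h' : Tendsto (fun n => ‖z' n - S.Φ n f'‖) atTop (𝓝 0)) :
    Tendsto (fun n => ‖(z n + z' n) - S.Φ n (f + f')‖) atTop (𝓝 0) := by
  have h1 := h.add h'
  rw [add_zero] at h1
  refine squeeze_zero (fun n => norm_nonneg _) (fun n => ?_) h1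
  rw [map_add, add_sub_add_comm]
  exact norm_add_le _ _

theorem estr_mul {z z' : ∀ n, CStarMatrix (S.J n) (S.J n) ℂ} {f f' : Y} {c : ℝ}
    (hc : ∀ n, ‖z n‖ ≤ c)
    (h : Tendsto (fun n => ‖z n - S.Φ n f‖) atTop (𝓝 0))
    (h' : Tendsto (fun n => ‖z' n - S.Φ n f'‖) atTop (𝓝 0)) :
    Tendsto (fun n => ‖(z n * z' n) - S.Φ n (f * f')‖) atTop (𝓝 0) := by
  have h1 := ((h'.const_mul c).add (h.mul_const ‖f'‖)).add (S.mul f f')
  rw [mul_zero, zero_mul, add_zero, add_zero] at h1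
  refine squeeze_zero (fun n => norm_nonneg _) (fun n => ?_) h1
  have h2 : (z n * z' n) - S.Φ n (f * f') = z n * (z' n - S.Φ n f') +
      (z n - S.Φ n f) * S.Φ n f' - (S.Φ n (f * f') - S.Φ n f * S.Φ n f') := by
    rw [mul_sub, sub_mul]
    abel
  rw [h2]
  refine (norm_sub_le _ _).trans (add_le_add ?_ le_rfl)
  refine (norm_add_le _ _).trans (add_le_add ?_ ?_)
  · exact (norm_mul_le _ _).trans (mul_le_mul_of_nonneg_right (hc n) (norm_nonneg _))
  · exact (norm_mul_le _ _).trans (mul_le_mul_of_nonneg_left (S.contr n f') (norm_nonneg _))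

theorem estr_smul {z : ∀ n, CStarMatrix (S.J n) (S.J n) ℂ} {f : Y} (c : ℂ)
    (h : Tendsto (fun n => ‖z n - S.Φ n f‖) atTop (𝓝 0)) :
    Tendsto (fun n => ‖(c • z n) - S.Φ n (c • f)‖) atTop (𝓝 0) := by
  have h1 := h.const_mul ‖c‖
  rw [mul_zero] at h1
  refine h1.congr fun n => ?_
  rw [map_smul, ← smul_sub, norm_smul]

theorem estr_star {z : ∀ n, CStarMatrix (S.J n) (S.J n) ℂ} {f : Y}
    (h : Tendsto (fun n => ‖z n - S.Φ n f‖) atTop (𝓝 0)) :
    Tendsto (fun n => ‖star (z n) - S.Φ n (star f)‖) atTop (𝓝 0) := by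
  refine h.congr fun n => ?_
  rw [S.starmap, ← star_sub, norm_star]

/-- The algebra `E`. -/
def EAlg : NonUnitalStarSubalgebra ℂ (EAmb S) where
  carrier := {a | Tendsto (fun n => ‖a.1 n - S.Φ n a.2‖) atTop (𝓝 0)}
  add_mem' {a b} ha hb := estr_add S ha hb
  zero_mem' := by
    show Tendsto (fun n => ‖(0 : CStarMatrix (S.J n) (S.J n) ℂ) - S.Φ n 0‖) atTop (𝓝 0)
    simp
  mul_mem' {a b} ha hb := estr_mul S (fun n => lp.norm_apply_le_norm ENNReal.top_ne_zero a.1 n) ha hb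
  smul_mem' c a ha := estr_smul S c ha
  star_mem' {a} ha := estr_star S ha

theorem estr_closed : IsClosed ((EAlg S : NonUnitalStarSubalgebra ℂ (EAmb S)) : Set (EAmb S)) := by
  refine isClosed_of_closure_subset fun a ha => ?_
  show Tendsto (fun n => ‖a.1 n - S.Φ n a.2‖) atTop (𝓝 0)
  rw [Metric.tendsto_atTop]
  intro ε hε
  obtain ⟨b, hb, hab⟩ := Metric.mem_closure_iff.1 ha (ε / 4) (by positivity)
  have hb' : Tendsto (fun n => ‖b.1 n - S.Φ n b.2‖) atTop (𝓝 0) := hb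
  obtain ⟨N, hN⟩ := Metric.tendsto_atTop.1 hb' (ε / 4) (by positivity)
  refine ⟨N, fun n hn => ?_⟩
  have h1 := hN n hn
  rw [Real.dist_eq, sub_zero, abs_of_nonneg (norm_nonneg _)] at h1 ⊢
  rw [dist_eq_norm] at hab
  have h2 : ‖a.1 - b.1‖ ≤ ‖a - b‖ := norm_fst_le (a - b)
  have h3 : ‖a.2 - b.2‖ ≤ ‖a - b‖ := norm_snd_le (a - b)
  have h4 : ‖a.1 n - b.1 n‖ ≤ ‖a.1 - b.1‖ := by
    have := lp.norm_apply_le_norm ENNReal.top_ne_zero (a.1 - b.1) n
    exact this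
  have h5 : ‖S.Φ n (a.2 - b.2)‖ ≤ ‖a.2 - b.2‖ := S.contr n _
  have h6 : a.1 n - S.Φ n a.2 = (a.1 n - b.1 n) + (b.1 n - S.Φ n b.2) - S.Φ n (a.2 - b.2) := by
    rw [map_sub]
    abel
  rw [h6]
  have h7 := norm_sub_le ((a.1 n - b.1 n) + (b.1 n - S.Φ n b.2)) (S.Φ n (a.2 - b.2))
  have h8 := norm_add_le (a.1 n - b.1 n) (b.1 n - S.Φ n b.2)
  linarith

instance : IsClosed ((EAlg S : NonUnitalStarSubalgebra ℂ (EAmb S)) : Set (EAmb S)) := estr_closed S

instance : NonUnitalCStarAlgebra (EAlg S) := NonUnitalStarSubalgebra.nonUnitalCStarAlgebra (EAlg S)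

/-- The coordinates. -/
def estrX (n : ℕ) : EAlg S →⋆ₙₐ[ℂ] CStarMatrix (S.J n) (S.J n) ℂ where
  toFun e := (e : EAmb S).1 n
  map_smul' _ _ := rfl
  map_zero' := rfl
  map_add' _ _ := rfl
  map_mul' _ _ := rfl
  map_star' _ := rfl

/-- The map to `Y`. -/
def estrR : EAlg S →⋆ₙₐ[ℂ] Y where
  toFun e := (e : EAmb S).2
  map_smul' _ _ := rfl
  map_zero' := rfl
  map_add' _ _ := rfl
  map_mul' _ _ := rfl
  map_star' _ := rfl

theorem estr_isE : IsE S (EAlg S) (estrX S) (estrR S) where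
  lim e := e.2
  norm_le e c hc h1 h2 := by
    have h3 : ‖e‖ = max ‖(e : EAmb S).1‖ ‖(e : EAmb S).2‖ := rfl
    exact h3.trans_le (max_le (lp.norm_le_of_forall_le hc h1) h2)
  ex z f h := by
    have h1 : BddAbove (Set.range fun n => ‖z n‖) := by
      obtain ⟨C, hC⟩ := h.bddAbove_range
      refine ⟨C + ‖f‖, ?_⟩
      rintro _ ⟨n, rfl⟩
      have h2 : ‖z n - S.Φ n f‖ ≤ C := hC ⟨n, rfl⟩
      have h3 := norm_add_le (z n - S.Φ n f) (S.Φ n f)
      rw [sub_add_cancel] at h3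
      have h4 := S.contr n f
      show ‖z n‖ ≤ C + ‖f‖
      linarith
    exact ⟨⟨(⟨z, memℓp_infty h1⟩, f), h⟩, fun n => rfl, rfl⟩

end

theorem estr : S_ESTR := fun _ _ S => ⟨EAlg S, inferInstance, estrX S, estrR S, estr_isE S⟩

end

end Pool.Agent.Helper61.CAR
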