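import Pool.Agent.Helper5.CAR.PU
import Pool.Agent.Helper16.CAR.WIN
import Pool.Agent.Helper18.CAR.MN
import Pool.Agent.Helper22.CAR.BD
import Pool.Agent.Helper36.CAR.LADR
import Pool.Agent.Helper44.CAR.Choi
import Pool.Agent.Helper44.CAR.QSEQ
import Pool.Agent.Helper44.CAR.STINE
import Pool.Agent.Helper46.CAR.LAD
import Pool.Agent.Helper48.CAR.Q
import Pool.Agent.Helper49.CAR.TENT
import Pool.Agent.Helper52.CAR.EZ
import Pool.Agent.Helper56.CAR.WB
import Pool.Agent.Helper58.CAR.LADC
import Pool.Agent.Helper61.CAR.BAND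
import Pool.Agent.Helper61.CAR.CMP
import Pool.Agent.Helper61.CAR.COL
import Pool.Agent.Helper61.CAR.ESTR
import Pool.Agent.Helper64.CAR.EN
import Pool.Agent.Helper80.CAR.NS
import Pool.Agent.Helper98.CAR.MULT
import Pool.Agent.Helper99.CAR.ESEP

/-!
# Project CAR (MP_d97caa_an), parts (c) and (d): assembly
-/

set_option autoImplicit false

namespace Pool.Agent.Helper61.CAR

open Pool.Agent.Helper34.CAR

theorem s_COL : S_COL := col

theorem s_MN : S_MN := Pool.Agent.Helper18.CAR.mn

theorem s_BD : S_BD := Pool.Agent.Helper22.CAR.bd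

theorem s_TENT : S_TENT := Pool.Agent.Helper49.CAR.tent

theorem s_PU : S_PU := Pool.Agent.Helper5.CAR.pu s_TENT

theorem s_LADC : S_LADC :=
  Pool.Agent.Helper58.CAR.ladc s_TENT Pool.Agent.Helper36.CAR.ladr
    (Pool.Agent.Helper16.CAR.win band) (Pool.Agent.Helper98.CAR.mult Pool.Agent.Helper56.CAR.wb)

theorem s_LAD : S_LAD :=
  Pool.Agent.Helper46.CAR.lad s_LADC (cmp s_MN) Pool.Agent.Helper56.CAR.wb

/-- Suspensions of nuclear algebras have property (Q). -/
theorem s_Q : S_Q :=
  Pool.Agent.Helper48.CAR.qq s_PU Pool.Agent.Helper44.CAR.choi Pool.Agent.Helper44.CAR.stine s_LAD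
    s_BD s_MN s_COL

/-- Separable algebras with property (Q) are quotients, with type I kernel, of separable algebras
with property (N). -/
theorem s_E : S_E :=
  e_of (Pool.Agent.Helper44.CAR.qseq s_COL) estr Pool.Agent.Helper99.CAR.esep
    Pool.Agent.Helper52.CAR.ez (Pool.Agent.Helper64.CAR.en s_COL s_BD)

/-- Property (N) passes to suspensions. -/
theorem s_NS : S_NS := Pool.Agent.Helper80.CAR.ns s_PU s_BD s_COL

end Pool.Agent.Helper61.CAR
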