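import Pool.Agent.Helper34.CAR.GoalsA

/-!
# Project CAR, packet ORTH: the norm of an orthogonal sum
-/

set_option autoImplicit false

namespace Pool.Agent.Helper61.CAR

open Pool.Agent.Helper34.CAR

theorem orth_sum_mul {A : Type} [NonUnitalCStarAlgebra A] {ι : Type} [Fintype ι] (a : ι → A)
    (h : ∀ i j, i ≠ j → star (a i) * a j = 0 ∧ a i * star (a j) = 0) :
    star (∑ i, a i) * ∑ i, a i = ∑ i, star (a i) * a i := by
  classical
  rw [star_sum, Finset.sum_mul_sum]
  refine Finset.sum_congr rfl fun i _ => ?_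
  rw [Finset.sum_eq_single i]
  · intro j _ hj
    exact (h i j (Ne.symm hj)).1
  · simp

/-- The iterated squares `b ↦ b* b`. -/
noncomputable def orthIt {A : Type} [NonUnitalCStarAlgebra A] (b : A) : ℕ → A
  | 0 => b
  | n + 1 => star (orthIt b n) * orthIt b n

theorem orthIt_norm {A : Type} [NonUnitalCStarAlgebra A] (b : A) (n : ℕ) :
    ‖orthIt b n‖ = ‖b‖ ^ (2 ^ n) := by
  induction n with
  | zero => simp [orthIt]
  | succ n ih =>
    show ‖star (orthIt b n) * orthIt b n‖ = _
    rw [CStarRing.norm_star_mul_self, ih, ← pow_add, pow_succ, mul_two]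

theorem orthIt_orth {A : Type} [NonUnitalCStarAlgebra A] {ι : Type} (a : ι → A)
    (h : ∀ i j, i ≠ j → star (a i) * a j = 0 ∧ a i * star (a j) = 0) (n : ℕ) :
    ∀ i j, i ≠ j → star (orthIt (a i) n) * orthIt (a j) n = 0 ∧
      orthIt (a i) n * star (orthIt (a j) n) = 0 := by
  induction n with
  | zero => exact h
  | succ n ih =>
    intro i j hij
    have h1 := (ih i j hij).2
    have h2 : star (star (orthIt (a i) n) * orthIt (a i) n) = star (orthIt (a i) n) * orthIt (a i) n := by
      rw [star_mul, star_star]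
    have h3 : star (star (orthIt (a j) n) * orthIt (a j) n) = star (orthIt (a j) n) * orthIt (a j) n := by
      rw [star_mul, star_star]
    have h4 : (star (orthIt (a i) n) * orthIt (a i) n) * (star (orthIt (a j) n) * orthIt (a j) n) = 0 := by
      rw [mul_assoc, ← mul_assoc (orthIt (a i) n), h1, zero_mul, mul_zero]
    constructor
    · show star (star (orthIt (a i) n) * orthIt (a i) n) * (star (orthIt (a j) n) * orthIt (a j) n) = 0
      rw [h2]
      exact h4
    · show (star (orthIt (a i) n) * orthIt (a i) n) * star (star (orthIt (a j) n) * orthIt (a j) n) = 0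
      rw [h3]
      exact h4

theorem orthIt_sum {A : Type} [NonUnitalCStarAlgebra A] {ι : Type} [Fintype ι] (a : ι → A)
    (h : ∀ i j, i ≠ j → star (a i) * a j = 0 ∧ a i * star (a j) = 0) (n : ℕ) :
    orthIt (∑ i, a i) n = ∑ i, orthIt (a i) n := by
  induction n with
  | zero => rfl
  | succ n ih =>
    show star (orthIt (∑ i, a i) n) * orthIt (∑ i, a i) n = _
    rw [ih]
    exact orth_sum_mul (fun i => orthIt (a i) n) (orthIt_orth a h n)

theorem orth : S_ORTH := by
  intro A _ ι _ a M hM hle h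
  by_contra hcon
  push Not at hcon
  set s := ‖∑ i, a i‖ with hs
  have hs0 : 0 < s := hM.trans_lt hcon
  have key : ∀ n : ℕ, s ^ (2 ^ n) ≤ (Fintype.card ι : ℝ) * M ^ (2 ^ n) := by
    intro n
    rw [hs, ← orthIt_norm, orthIt_sum a h n]
    refine (norm_sum_le _ _).trans ?_
    refine (Finset.sum_le_sum fun i _ => ?_ : _ ≤ ∑ _i : ι, M ^ (2 ^ n)).trans (by simp)
    rw [orthIt_norm]
    exact pow_le_pow_left₀ (norm_nonneg _) (hle i) _
  rcases hM.eq_or_lt with h0 | h0
  · have h1 := key 0
    rw [← h0] at h1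
    simp at h1
    linarith
  · have h2 : 1 < s / M := (one_lt_div h0).2 hcon
    obtain ⟨m, hm⟩ := pow_unbounded_of_one_lt (Fintype.card ι : ℝ) h2
    have h3 : (s / M) ^ m ≤ (s / M) ^ (2 ^ m) :=
      pow_le_pow_right₀ h2.le Nat.lt_two_pow_self.le
    have h4 : (s / M) ^ (2 ^ m) ≤ Fintype.card ι := by
      rw [div_pow, div_le_iff₀ (by positivity)]
      exact key m
    linarith

end Pool.Agent.Helper61.CAR
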