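import Pool.Agent.Helper34.CAR.GoalsA

/-!
# Project CAR, packet COLV: the intertwining column
-/

set_option autoImplicit false

open scoped ComplexOrder

namespace Pool.Agent.Helper61.CAR

open Pool.Agent.Helper34.CAR

section

variable {R : Type} [CStarAlgebra R] {J : Type} [Fintype J] [DecidableEq J] {m : ℕ}

theorem colv_slot (g : R) (x y : Option (Fin m × J)) :
    slot (J := J) m g x y = if x = none ∧ y = none then g else 0 := by
  cases x <;> cases y <;> simp [slot]

theorem colv_colm (j : Fin m) (u : J → R) (x y : Option (Fin m × J)) :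
    colm j u x y = match x, y with
    | some (i, p), none => if i = j then u p else 0
    | _, _ => 0 := rfl

/-- `star (colm j u) * colm j u' = slot (∑ star (u p) * u' p)`. -/
theorem colv_star_mul (j : Fin m) (u u' : J → R) :
    star (colm j u) * colm j u' = slot (J := J) m (∑ p, star (u p) * u' p) := by
  ext x y
  rw [Mt.mul_apply, Fintype.sum_option, Fintype.sum_prod_type]
  cases x with
  | none =>
    cases y with
    | none =>
      simp only [Mt.star_apply, colm, Mt.of_apply, slot, star_zero, zero_mul, zero_add]
      rw [Finset.sum_eq_single j]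
      · simp
      · intro i _ hi
        simp [hi]
      · simp
    | some y => simp [colm, slot]
  | some x =>
    cases y <;> simp [colm, slot]

theorem colv_blk_mul (j : Fin m) (a : CStarMatrix J J ℂ) (u : J → R) :
    blk j a * colm j u = colm j (fun p => ∑ q, a p q • u q) := by
  ext x y
  rw [Mt.mul_apply, Fintype.sum_option, Fintype.sum_prod_type]
  cases x with
  | none => cases y <;> simp [blk, colm]
  | some x =>
    cases y with
    | none =>
      simp only [blk, colm, Mt.of_apply, zero_mul, zero_add, mul_zero]
      by_cases hx : x.1 = j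
      · rw [Finset.sum_eq_single j]
        · simp [hx, Algebra.smul_def]
        · intro i _ hi
          simp [hi]
        · simp
      · simp [hx]
    | some y => simp [blk, colm]

theorem colv_mul_slot (j : Fin m) (g : R) (u : J → R) :
    colm j u * slot (J := J) m g = colm j (fun p => u p * g) := by
  ext x y
  rw [Mt.mul_apply, Fintype.sum_option, Fintype.sum_prod_type]
  cases x with
  | none => cases y <;> simp [slot, colm]
  | some x =>
    cases y with
    | none =>
      simp only [slot, colm, Mt.of_apply, mul_zero, Finset.sum_const_zero, add_zero]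
      split_ifs <;> simp
    | some y => simp [slot, colm]

theorem colv_sub (j : Fin m) (u u' : J → R) :
    colm j u - colm j u' = colm j (fun p => u p - u' p) := by
  ext x y
  rw [Mt.sub_apply]
  cases x with
  | none => cases y <;> simp [colm]
  | some x =>
    cases y with
    | none =>
      simp only [colm, Mt.of_apply]
      split_ifs <;> simp
    | some y => simp [colm]

theorem colv_slot_eq_single (g : R) :
    slot (J := J) m g = Mt.single (none : Option (Fin m × J)) none g := by
  ext x y
  rw [colv_slot, Mt.single_apply]

theorem colv_norm (j : Fin m) (u : J → R) {c : ℝ} (hc : ‖∑ p, star (u p) * u p‖ ≤ c) :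
    ‖colm j u‖ ≤ √c := by
  refine Real.le_sqrt_of_sq_le ?_
  rw [sq, ← CStarRing.norm_star_mul_self, colv_star_mul, colv_slot_eq_single]
  exact (Mt.norm_single_le _ _ _).trans hc

end

theorem colv_sum {B : Type} [CStarAlgebra B] {J : Type} [Fintype J] [DecidableEq J]
    (a : CStarMatrix J J ℂ) (v : J → B) (hv : ∑ p, star (v p) * v p = 1) (b : B) :
    ∑ p, star (∑ q, a p q • v q - v p * b) * (∑ q, a p q • v q - v p * b) =
      qf (star a * a) v - qf (star a) v * b - star b * qf a v + star b * b := by
  have h1 : qf (star a * a) v = ∑ p, (∑ q, star (a p q) • star (v q)) * ∑ r, a p r • v r := by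
    unfold qf
    have : ∀ q r, (star a * a) q r • (star (v q) * v r) =
        ∑ p, (star (a p q) * a p r) • (star (v q) * v r) := by
      intro q r
      rw [CStarMatrix.mul_apply, Finset.sum_smul]
      rfl
    simp only [this]
    have h2 : ∀ p, (∑ q, star (a p q) • star (v q)) * ∑ r, a p r • v r =
        ∑ q, ∑ r, (star (a p q) * a p r) • (star (v q) * v r) := by
      intro p
      rw [Finset.sum_mul_sum]
      refine Finset.sum_congr rfl fun q _ => Finset.sum_congr rfl fun r _ => ?_
      rw [smul_mul_smul_comm]
    simp only [h2]
    calc (∑ q, ∑ r, ∑ p, (star (a p q) * a p r) • (star (v q) * v r))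
        = ∑ q, ∑ p, ∑ r, (star (a p q) * a p r) • (star (v q) * v r) :=
          Finset.sum_congr rfl fun q _ => Finset.sum_comm
      _ = ∑ p, ∑ q, ∑ r, (star (a p q) * a p r) • (star (v q) * v r) := Finset.sum_comm
  have h3 : qf (star a) v = ∑ p, (∑ q, star (a p q) • star (v q)) * v p := by
    unfold qf
    rw [Finset.sum_comm]
    refine Finset.sum_congr rfl fun p _ => ?_
    rw [Finset.sum_mul]
    refine Finset.sum_congr rfl fun q _ => ?_
    rw [smul_mul_assoc]
    rfl
  have h4 : qf a v = ∑ p, star (v p) * ∑ q, a p q • v q := by
    unfold qf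
    refine Finset.sum_congr rfl fun p _ => ?_
    rw [Finset.mul_sum]
    refine Finset.sum_congr rfl fun q _ => ?_
    rw [mul_smul_comm]
  have h5 : star b * b = star b * (∑ p, star (v p) * v p) * b := by rw [hv, mul_one]
  rw [h5, h1, h3, h4, Finset.sum_mul, Finset.mul_sum, Finset.mul_sum, Finset.sum_mul,
    ← Finset.sum_sub_distrib, ← Finset.sum_sub_distrib, ← Finset.sum_add_distrib]
  refine Finset.sum_congr rfl fun p _ => ?_
  rw [star_sub, star_sum, star_mul]
  simp only [star_smul]
  generalize (∑ q, star (a p q) • star (v q)) = S
  generalize (∑ q, a p q • v q) = T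
  noncomm_ring

theorem colv : S_COLV := by
  intro B R _ _ g J _ _ σ v m j b δ hv h1 h2 h3
  constructor
  · rw [colv_star_mul]
    congr 1
    have := congrArg g hv
    simpa [map_sum, map_mul, map_star] using this
  · rw [colv_blk_mul, colv_mul_slot, colv_sub]
    refine colv_norm j _ ?_
    have h4 : ∀ p, (∑ q, σ b p q • g (v q)) - g (v p) * g b =
        g ((∑ q, σ b p q • v q) - v p * b) := by
      intro p
      rw [map_sub, map_mul, map_sum]
      congr 1
      exact Finset.sum_congr rfl fun q _ => (map_smul g _ _).symm
    simp only [h4]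
    have h5 : ∑ p, star (g ((∑ q, σ b p q • v q) - v p * b)) *
        g ((∑ q, σ b p q • v q) - v p * b) =
        g (qf (star (σ b) * σ b) v - qf (star (σ b)) v * b - star b * qf (σ b) v + star b * b) := by
      rw [← colv_sum (σ b) v hv b, map_sum]
      refine Finset.sum_congr rfl fun p _ => ?_
      rw [map_mul, map_star]
    rw [h5]
    refine (NonUnitalStarAlgHom.norm_apply_le g _).trans ?_
    rw [← map_star, ← map_mul]
    have h6 : qf (σ (star b * b)) v - qf (σ (star b)) v * b - star b * qf (σ b) v + star b * b =
        (qf (σ (star b * b)) v - star b * b) - (qf (σ (star b)) v - star b) * b -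
          star b * (qf (σ b) v - b) := by
      noncomm_ring
    rw [h6]
    have h7 : ‖(qf (σ (star b)) v - star b) * b‖ ≤ δ * ‖b‖ :=
      (norm_mul_le _ _).trans (mul_le_mul_of_nonneg_right h2 (norm_nonneg _))
    have h8 : ‖star b * (qf (σ b) v - b)‖ ≤ ‖b‖ * δ := by
      refine (norm_mul_le _ _).trans ?_
      rw [norm_star]
      exact mul_le_mul_of_nonneg_left h1 (norm_nonneg _)
    refine (norm_sub_le _ _).trans ?_
    have h9 := norm_sub_le (qf (σ (star b * b)) v - star b * b) ((qf (σ (star b)) v - star b) * b)
    nlinarith

end Pool.Agent.Helper61.CAR
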