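import Pool.Agent.Helper34.CAR.GoalsA

/-!
# Project CAR, packet SWAP: conjugation by the swap unitary
-/

set_option autoImplicit false

namespace Pool.Agent.Helper61.CAR

open Pool.Agent.Helper34.CAR

theorem swap_proj_norm {R : Type} [CStarAlgebra R] {q : R} (h1 : q * q = q) (h2 : star q = q) :
    ‖q‖ ≤ 1 := by
  have h3 : ‖q‖ * ‖q‖ = ‖q‖ := by
    rw [← CStarRing.norm_star_mul_self, h2, h1]
  nlinarith [norm_nonneg q]

theorem swap : S_SWAP := by
  intro R _ e f V h k s r d ee se ff sf ef VV fV eh he ek ke fs sf' er re fr rf hA hA'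
  set W : R := star V with hW
  have sW : star W = V := star_star V
  have fe : f * e = 0 := by
    have := congrArg star ef
    rwa [star_mul, se, sf, star_zero] at this
  have Wf : W * f = W := by
    have := congrArg star fV
    rwa [star_mul, sf] at this
  have Ve : V * e = V := by
    have h1 : star (V - V * e) * (V - V * e) = 0 := by
      rw [star_sub, star_mul, se, ← hW, sub_mul, mul_sub, mul_sub, VV]
      rw [← mul_assoc W V e, VV, mul_assoc e W V, VV, ← mul_assoc (e * W) V e, mul_assoc e W V,
        VV, ee, ee]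
      simp
    have h2 := CStarRing.star_mul_self_eq_zero_iff (V - V * e) |>.1 h1
    exact (sub_eq_zero.1 h2).symm
  have eW : e * W = W := by
    have := congrArg star Ve
    rwa [star_mul, se] at this
  have eV : e * V = 0 := by rw [← fV, ← mul_assoc, ef, zero_mul]
  have We : W * e = 0 := by
    have := congrArg star eV
    rwa [star_mul, se, star_zero] at this
  have VV0 : V * V = 0 := by
    conv_lhs => rw [← Ve]
    rw [mul_assoc, Ve, eV, mul_zero]
  have WW0 : W * W = 0 := by
    have := congrArg star VV0
    rwa [star_mul, star_zero] at this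
  -- relations for `h`, `k`, `s`, `r`
  have Wh : W * h = 0 := by rw [← eh, ← mul_assoc, We, zero_mul]
  have hV : h * V = 0 := by rw [← he, mul_assoc, eV, mul_zero]
  have Wk : W * k = 0 := by rw [← ek, ← mul_assoc, We, zero_mul]
  have es : e * s = 0 := by rw [← fs, ← mul_assoc, ef, zero_mul]
  have se' : s * e = 0 := by rw [← sf', mul_assoc, fe, mul_zero]
  have Vs : V * s = 0 := by
    conv_lhs => rw [← Ve]
    rw [mul_assoc, es, mul_zero]
  have sW' : s * W = 0 := by
    conv_lhs => rw [← eW]
    rw [← mul_assoc, se', zero_mul]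
  have Vr : V * r = 0 := by
    conv_lhs => rw [← Ve]
    rw [mul_assoc, er, mul_zero]
  have Wr : W * r = 0 := by
    conv_lhs => rw [← Wf]
    rw [mul_assoc, fr, mul_zero]
  have rV : r * V = 0 := by rw [← fV, ← mul_assoc, rf, zero_mul]
  have rW : r * W = 0 := by
    conv_lhs => rw [← eW]
    rw [← mul_assoc, re, zero_mul]
  have Ua : (V + W + (1 - e - V * W)) * (h + s + r) = V * h + (W * s + s - V * (W * s)) + r := by
    have : (V + W + (1 - e - V * W)) * (h + s + r) =
        V * h + V * s + V * r + (W * h + W * s + W * r) + (h + s + r) -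
        (e * h + e * s + e * r) - (V * (W * h) + V * (W * s) + V * (W * r)) := by
      noncomm_ring
    rw [this, Vs, Vr, Wh, Wr, eh, es, er]
    simp only [mul_zero, add_zero, zero_add]
    abel
  have hU : h * (V + W + (1 - e - V * W)) = h * W := by
    have : h * (V + W + (1 - e - V * W)) = h * V + h * W + h - h * e - h * V * W := by
      noncomm_ring
    rw [this, hV, he]
    simp
  have sU : s * (V + W + (1 - e - V * W)) = s * V + s - s * V * W := by
    have : s * (V + W + (1 - e - V * W)) = s * V + s * W + s - s * e - s * V * W := by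
      noncomm_ring
    rw [this, sW', se']
    simp
  have rU : r * (V + W + (1 - e - V * W)) = r := by
    have : r * (V + W + (1 - e - V * W)) = r * V + r * W + r - r * e - r * V * W := by
      noncomm_ring
    rw [this, rV, rW, re]
    simp
  have hUU : (V + W + (1 - e - V * W)) * (V + W + (1 - e - V * W)) = 1 := by
    have : (V + W + (1 - e - V * W)) * (V + W + (1 - e - V * W)) =
        V * V + V * W + V - V * e - V * V * W + (W * V + W * W + W - W * e - W * V * W) +
        (V + W + (1 - e - V * W)) - (e * V + e * W + e - e * e - e * V * W) -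
        (V * (W * V) + V * (W * W) + V * W - V * (W * e) - V * (W * V) * W) := by
      noncomm_ring
    rw [this, VV0, Ve, VV, WW0, We, eW, eV, ee, Ve]
    simp only [mul_zero, zero_mul]
    abel
  have hUs : star (V + W + (1 - e - V * W)) = V + W + (1 - e - V * W) := by
    simp only [star_add, star_sub, star_mul, star_one, se, sW, ← hW]
    abel
  refine ⟨hUs, hUU, ?_⟩
  have hU2 : (V + W + (1 - e - V * W)) * (h + s + r) * (V + W + (1 - e - V * W)) =
      V * (h * W) + W * (s * V + s - s * V * W) + (s * V + s - s * V * W) -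
        V * (W * (s * V + s - s * V * W)) + r := by
    rw [Ua]
    have : (V * h + (W * s + s - V * (W * s)) + r) * (V + W + (1 - e - V * W)) =
        V * (h * (V + W + (1 - e - V * W))) + W * (s * (V + W + (1 - e - V * W))) +
        s * (V + W + (1 - e - V * W)) - V * (W * (s * (V + W + (1 - e - V * W)))) +
        r * (V + W + (1 - e - V * W)) := by
      simp only [add_mul, sub_mul, mul_assoc]
      abel
    rw [this, hU, sU, rU]
  -- the projection `Q`
  set Q : R := f - V * W with hQ
  have QV : Q * V = 0 := by rw [hQ, sub_mul, fV, mul_assoc, VV, Ve, sub_self]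
  have Qf : Q * f = Q := by rw [hQ, sub_mul, ff, mul_assoc, Wf]
  have sQ : star Q = Q := by rw [hQ, star_sub, star_mul, sf, sW, ← hW]
  have QQ : Q * Q = Q := by
    conv_lhs => rw [hQ, mul_sub]
    rw [Qf, ← mul_assoc, QV, zero_mul, sub_zero]
  have nQ : ‖Q‖ ≤ 1 := swap_proj_norm QQ sQ
  have nV : ‖V‖ ≤ 1 := by
    have h1 : ‖V‖ * ‖V‖ = ‖e‖ := by rw [← CStarRing.norm_star_mul_self, ← hW, VV]
    have h2 : ‖e‖ ≤ 1 := swap_proj_norm ee se
    nlinarith [norm_nonneg V]
  have nW : ‖W‖ ≤ 1 := by rw [hW, norm_star]; exact nV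
  have hQs : Q * s = s - V * (W * s) := by rw [hQ, sub_mul, fs, mul_assoc]
  have hsQ : s * Q = s - s * V * W := by rw [hQ, mul_sub, sf', ← mul_assoc]
  set A : R := s * V - V * k with hAdef
  set A' : R := star s * V - V * star k with hAdef'
  have hT1 : W * A = W * (s * V) - k := by
    rw [hAdef, mul_sub, ← mul_assoc W V k, VV, ek]
  have hQA : Q * A = s * V - V * (W * (s * V)) := by
    rw [hAdef, mul_sub, ← mul_assoc, hQs, ← mul_assoc Q V k, QV, zero_mul, sub_zero, sub_mul]
    simp only [mul_assoc]
  have hQA' : star (Q * A') = W * s - W * (s * V * W) := by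
    have h1 : Q * A' = Q * (star s * V) := by
      rw [hAdef', mul_sub, ← mul_assoc Q V, QV, zero_mul, sub_zero]
    rw [h1, star_mul, star_mul, star_star, sQ, ← hW, mul_assoc, hsQ, mul_sub]
  have hD : (V * (h * W) + W * (s * V + s - s * V * W) + (s * V + s - s * V * W) -
        V * (W * (s * V + s - s * V * W)) + r) - (k + s + V * (h - k) * W + r) =
      W * A - V * (W * A) * W - V * star (Q * A') - (Q * A) * W + star (Q * A') + Q * A := by
    rw [hT1, hQA, hQA']
    simp only [mul_add, mul_sub, sub_mul, add_mul, mul_assoc]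
    abel
  rw [hU2, hD]
  have nA1 : ‖W * A‖ ≤ d := by
    refine (norm_mul_le _ _).trans ?_
    nlinarith [norm_nonneg A, norm_nonneg W]
  have nA2 : ‖Q * A‖ ≤ d := by
    refine (norm_mul_le _ _).trans ?_
    nlinarith [norm_nonneg A, norm_nonneg Q]
  have nA3 : ‖star (Q * A')‖ ≤ d := by
    rw [norm_star]
    refine (norm_mul_le _ _).trans ?_
    nlinarith [norm_nonneg A', norm_nonneg Q]
  have nA4 : ‖V * (W * A) * W‖ ≤ d := by
    refine (norm_mul_le _ _).trans ?_
    have h1 : ‖V * (W * A)‖ ≤ d := by
      refine (norm_mul_le _ _).trans ?_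
      nlinarith [norm_nonneg (W * A), norm_nonneg V]
    nlinarith [norm_nonneg (V * (W * A)), norm_nonneg W]
  have nA5 : ‖V * star (Q * A')‖ ≤ d := by
    refine (norm_mul_le _ _).trans ?_
    nlinarith [norm_nonneg (star (Q * A')), norm_nonneg V]
  have nA6 : ‖(Q * A) * W‖ ≤ d := by
    refine (norm_mul_le _ _).trans ?_
    nlinarith [norm_nonneg (Q * A), norm_nonneg W]
  calc ‖W * A - V * (W * A) * W - V * star (Q * A') - (Q * A) * W + star (Q * A') + Q * A‖
      ≤ ‖W * A‖ + ‖V * (W * A) * W‖ + ‖V * star (Q * A')‖ + ‖(Q * A) * W‖ +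
        ‖star (Q * A')‖ + ‖Q * A‖ := by
        refine (norm_add_le _ _).trans (add_le_add_left ?_ _)
        refine (norm_add_le _ _).trans (add_le_add_left ?_ _)
        refine (norm_sub_le _ _).trans (add_le_add_left ?_ _)
        refine (norm_sub_le _ _).trans (add_le_add_left ?_ _)
        exact norm_sub_le _ _
    _ ≤ 6 * d := by linarith

end Pool.Agent.Helper61.CAR
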