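import Pool.Agent.Helper61.CAR.GoalsQ

/-!
# Project CAR, packet BAND: commutators with band operators
-/

set_option autoImplicit false

open scoped ComplexOrder InnerProductSpace ComplexConjugate

namespace Pool.Agent.Helper61.CAR

section band

variable {H : Type} [NormedAddCommGroup H] [InnerProductSpace ℂ H] [CompleteSpace H]

theorem band_inner {P : H →L[ℂ] H} (hP : star P = P) (x y : H) : ⟪P x, y⟫_ℂ = ⟪x, P y⟫_ℂ := by
  have h := ContinuousLinearMap.adjoint_inner_left P y x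
  rw [← ContinuousLinearMap.star_eq_adjoint, hP] at h
  exact h

theorem band_pyth {P : H →L[ℂ] H} (hs : star P = P) (hP : P * P = P) (u z : H) :
    ‖P u + (z - P z)‖ ^ 2 = ‖P u‖ ^ 2 + ‖z - P z‖ ^ 2 := by
  have h0 : ⟪P u, z - P z⟫_ℂ = 0 := by
    have h1 : P (P z) = P z := congrArg (fun T : H →L[ℂ] H => T z) hP
    rw [band_inner hs, map_sub, h1, sub_self, inner_zero_right]
  have := norm_add_sq_eq_norm_sq_add_norm_sq_of_inner_eq_zero (P u) (z - P z) h0
  nlinarith [this]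

theorem band_proj_le {P : H →L[ℂ] H} (hs : star P = P) (hP : P * P = P) (z : H) :
    ‖P z‖ ^ 2 + ‖z - P z‖ ^ 2 = ‖z‖ ^ 2 := by
  rw [← band_pyth hs hP]
  congr 2
  abel

theorem band_key (P : ℕ → (H →L[ℂ] H)) (hs : ∀ q, star (P q) = P q)
    (hP : ∀ q r, q ≤ r → P q * P r = P q) (b : H →L[ℂ] H)
    (hb : ∀ q, b * P q = P (q + 1) * b * P q) (l : ℕ → ℝ) (δ : ℝ) (hδ : 0 ≤ δ) (N : ℕ)
    (hl : ∀ q, q < N → |l q| ≤ δ) :
    ‖∑ q ∈ Finset.range N, (l q : ℂ) • ((1 - P q) * b * P q)‖ ≤ δ * ‖b‖ := by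
  have hP' : ∀ q r, q ≤ r → P r * P q = P q := by
    intro q r h
    have h1 := congrArg star (hP q r h)
    rwa [star_mul, hs, hs] at h1
  have hPa : ∀ q r, q ≤ r → ∀ x, P q (P r x) = P q x := fun q r h x =>
    congrArg (fun T : H →L[ℂ] H => T x) (hP q r h)
  have hPa' : ∀ q r, q ≤ r → ∀ x, P r (P q x) = P q x := fun q r h x =>
    congrArg (fun T : H →L[ℂ] H => T x) (hP' q r h)
  have hba : ∀ q x, P (q + 1) (b (P q x)) = b (P q x) := fun q x =>
    (congrArg (fun T : H →L[ℂ] H => T x) (hb q)).symm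
  refine ContinuousLinearMap.opNorm_le_bound _ (by positivity) fun x => ?_
  have happ : (∑ q ∈ Finset.range N, (l q : ℂ) • ((1 - P q) * b * P q)) x =
      ∑ q ∈ Finset.range N, (l q : ℂ) • (b (P q x) - P q (b (P q x))) := by
    rw [ContinuousLinearMap.sum_apply]
    rfl
  rw [happ]
  set y : ℕ → H := fun q => b (P q x) - P q (b (P q x)) with hy
  let Qx : ℕ → H := fun q => Nat.rec (P 0 x) (fun q _ => P (q + 1) x - P q x) q
  have hQ0 : Qx 0 = P 0 x := rfl
  have hQ1 : ∀ q, Qx (q + 1) = P (q + 1) x - P q x := fun q => rfl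
  have hT : ∀ M, ∑ q ∈ Finset.range (M + 1), ‖Qx q‖ ^ 2 = ‖P M x‖ ^ 2 := by
    intro M
    induction M with
    | zero => simp [hQ0]
    | succ M ih =>
      rw [Finset.sum_range_succ, ih, hQ1]
      have h1 := band_proj_le (hs M) (hP M M le_rfl) (P (M + 1) x)
      rw [hPa M (M + 1) (Nat.le_succ M)] at h1
      exact h1
  have hT' : ∀ M, ∑ q ∈ Finset.range M, ‖Qx q‖ ^ 2 ≤ ‖x‖ ^ 2 := by
    intro M
    cases M with
    | zero => simp
    | succ M =>
      rw [hT]
      have h1 := band_proj_le (hs M) (hP M M le_rfl) x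
      nlinarith [sq_nonneg ‖x - P M x‖]
  have hyb : ∀ q, ‖y q‖ ^ 2 ≤ ‖b‖ ^ 2 * ‖Qx q‖ ^ 2 := by
    intro q
    have h1 : y q = b (Qx q) - P q (b (Qx q)) := by
      cases q with
      | zero => rfl
      | succ q =>
        rw [hQ1]
        simp only [map_sub, hy]
        rw [hba q x]
        abel
    have h2 := band_proj_le (hs q) (hP q q le_rfl) (b (Qx q))
    rw [h1]
    have h3 : ‖b (Qx q)‖ ≤ ‖b‖ * ‖Qx q‖ := b.le_opNorm _
    have h4 : ‖b (Qx q)‖ ^ 2 ≤ (‖b‖ * ‖Qx q‖) ^ 2 := by gcongr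
    nlinarith [sq_nonneg ‖P q (b (Qx q))‖]
  have hrange : ∀ M, P M (∑ q ∈ Finset.range M, (l q : ℂ) • y q) =
      ∑ q ∈ Finset.range M, (l q : ℂ) • y q := by
    intro M
    rw [map_sum]
    refine Finset.sum_congr rfl fun q hq => ?_
    have hqM : q + 1 ≤ M := Finset.mem_range.1 hq
    rw [map_smul]
    congr 1
    have h1 : P (q + 1) (y q) = y q := by
      simp only [hy, map_sub]
      rw [hba q x, hPa' q (q + 1) (Nat.le_succ q)]
    rw [← h1, hPa' (q + 1) M hqM]
  have hsum : ∀ M, M ≤ N → ‖∑ q ∈ Finset.range M, (l q : ℂ) • y q‖ ^ 2 ≤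
      (δ * ‖b‖) ^ 2 * ∑ q ∈ Finset.range M, ‖Qx q‖ ^ 2 := by
    intro M
    induction M with
    | zero => intro _; simp
    | succ M ih =>
      intro hM
      have ih' := ih (by omega)
      rw [Finset.sum_range_succ, Finset.sum_range_succ (fun q => ‖Qx q‖ ^ 2)]
      have h1 : (l M : ℂ) • y M = ((l M : ℂ) • b (P M x)) - P M ((l M : ℂ) • b (P M x)) := by
        simp only [hy, smul_sub, map_smul]
      have h2 := band_pyth (hs M) (hP M M le_rfl) (∑ q ∈ Finset.range M, (l q : ℂ) • y q)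
        ((l M : ℂ) • b (P M x))
      rw [hrange M, ← h1] at h2
      rw [h2]
      have h3 : ‖(l M : ℂ) • y M‖ ^ 2 ≤ (δ * ‖b‖) ^ 2 * ‖Qx M‖ ^ 2 := by
        rw [norm_smul, Complex.norm_real, Real.norm_eq_abs, mul_pow, mul_pow, mul_assoc]
        have h4 : |l M| ^ 2 ≤ δ ^ 2 := by
          have := hl M (by omega)
          gcongr
        exact mul_le_mul h4 (hyb M) (by positivity) (by positivity)
      rw [mul_add]
      exact add_le_add ih' h3
  have hfin := hsum N le_rfl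
  have h5 : ‖∑ q ∈ Finset.range N, (l q : ℂ) • y q‖ ^ 2 ≤ (δ * ‖b‖ * ‖x‖) ^ 2 := by
    rw [mul_pow (δ * ‖b‖)]
    exact hfin.trans (mul_le_mul_of_nonneg_left (hT' N) (by positivity))
  exact le_of_sq_le_sq h5 (by positivity)

end band

theorem band : S_BAND := by
  intro H _ _ _ N P a l δ hs hP ha ha' hδ hl
  have h1 := band_key P hs hP a ha l δ hδ N hl
  have h2 := band_key P hs hP (star a) ha' l δ hδ N hl
  have h3 : (∑ q ∈ Finset.range N, (l q : ℂ) • P q) * a -
      a * ∑ q ∈ Finset.range N, (l q : ℂ) • P q =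
      star (∑ q ∈ Finset.range N, (l q : ℂ) • ((1 - P q) * star a * P q)) -
      ∑ q ∈ Finset.range N, (l q : ℂ) • ((1 - P q) * a * P q) := by
    rw [star_sum, Finset.sum_mul, Finset.mul_sum, ← Finset.sum_sub_distrib,
      ← Finset.sum_sub_distrib]
    refine Finset.sum_congr rfl fun q _ => ?_
    rw [star_smul, star_mul, star_mul, star_star, star_sub, star_one, hs]
    have h4 : star (l q : ℂ) = (l q : ℂ) := Complex.conj_ofReal _
    rw [h4, smul_mul_assoc, mul_smul_comm, ← smul_sub, ← smul_sub]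
    congr 1
    noncomm_ring
  rw [h3]
  refine (norm_sub_le _ _).trans ?_
  rw [norm_star]
  rw [norm_star] at h2
  linarith

end Pool.Agent.Helper61.CAR
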